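import Mathlib

set_option autoImplicit false

namespace Pool.Agent.Results.MP_90f83a_nt.NonIntegral

open Finset

theorem result (r s : ℕ) (hs : 1 < s) (hr : s < r) (c : ℕ → ℚ)
    (hc : ∀ n : ℕ, ∑ k ∈ range (n + 1), ((n.choose k : ℚ) ^ r * ((n + k).choose k : ℚ) ^ r) =
      ∑ k ∈ range (n + 1), (n.choose k : ℚ) ^ s * ((n + k).choose k : ℚ) ^ s * c k) :
    ∃ n : ℕ, 0 < n ∧ ∀ z : ℤ, c n ≠ z := by
  by_contra hcon
  push Not at hcon
  obtain ⟨d, rfl⟩ : ∃ d, r = s + (d + 1) := ⟨r - s - 1, by omega⟩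
  have h0 : c 0 = 1 := by simpa using (hc 0).symm
  have h1 : c 1 = 2 ^ (d + 1) := by
    have := hc 1
    simp only [sum_range_succ, range_zero, sum_empty, Nat.choose_zero_right, Nat.cast_one, one_pow,
      mul_one, zero_add, one_mul, Nat.choose_self, Nat.choose_one_right, h0, add_right_inj] at this
    have h2 : ((1 + 1 : ℕ) : ℚ) = 2 := by norm_num
    rw [h2, pow_add] at this
    exact (mul_left_cancel₀ (by positivity) this).symm
  have hz : ∀ n, ∃ z : ℤ, c n = z := by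
    intro n
    rcases Nat.eq_zero_or_pos n with rfl | h
    · exact ⟨1, by simp [h0]⟩
    · exact hcon n h
  choose z hz using hz
  obtain ⟨p, hp, hpp⟩ := Nat.exists_infinite_primes (d + 5)
  obtain ⟨m, rfl⟩ : ∃ m, p = m + 3 := ⟨p - 3, by omega⟩
  have h := hc (m + 1)
  simp only [hz] at h h0 h1
  have h' : ∑ k ∈ range (m + 1 + 1), (((m + 1).choose k : ℤ) ^ (s + (d + 1)) *
      ((m + 1 + k).choose k : ℤ) ^ (s + (d + 1))) =
      ∑ k ∈ range (m + 1 + 1), ((m + 1).choose k : ℤ) ^ s * ((m + 1 + k).choose k : ℤ) ^ s * z k := by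
    exact_mod_cast h
  have z0 : z 0 = 1 := by exact_mod_cast h0
  have z1 : z 1 = 2 ^ (d + 1) := by exact_mod_cast h1
  rw [sum_range_succ', sum_range_succ', sum_range_succ', sum_range_succ'] at h'
  have hdv : ∀ k ∈ range m, ((m + 3 : ℕ) : ℤ) ^ 2 ∣ ((m + 1 + (k + 1 + 1)).choose (k + 1 + 1) : ℤ) ^ s := by
    intro k hk
    have hk' := mem_range.1 hk
    have : m + 3 ∣ (m + 1 + (k + 1 + 1)).choose (k + 1 + 1) :=
      hpp.dvd_choose (by omega) (by omega) (by omega)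
    exact (pow_dvd_pow _ hs).trans (pow_dvd_pow_of_dvd (Int.natCast_dvd_natCast.2 this) s)
  have A : ((m + 3 : ℕ) : ℤ) ^ 2 ∣ ∑ k ∈ range m, (((m + 1).choose (k + 1 + 1) : ℤ) ^ (s + (d + 1)) *
      ((m + 1 + (k + 1 + 1)).choose (k + 1 + 1) : ℤ) ^ (s + (d + 1))) :=
    dvd_sum fun k hk => Dvd.dvd.mul_left (by rw [pow_add]; exact (hdv k hk).mul_right _) _
  have B : ((m + 3 : ℕ) : ℤ) ^ 2 ∣ ∑ k ∈ range m, ((m + 1).choose (k + 1 + 1) : ℤ) ^ s *
      ((m + 1 + (k + 1 + 1)).choose (k + 1 + 1) : ℤ) ^ s * z (k + 1 + 1) :=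
    dvd_sum fun k hk => ((hdv k hk).mul_left _).mul_right _
  simp only [zero_add, Nat.choose_one_right, Nat.choose_zero_right, Nat.cast_one, one_pow, mul_one,
    z0, z1, add_left_inj] at h'
  set P : ℤ := ((m + 3 : ℕ) : ℤ) with hP
  have hPp : Prime P := Nat.prime_iff_prime_int.1 hpp
  have eN : ((m + 1 : ℕ) : ℤ) * ((m + 1 + 1 : ℕ) : ℤ) = 2 + P * (P - 3) := by
    rw [hP]; push_cast; ring
  have C : P ^ 2 ∣ (2 + P * (P - 3)) ^ s * ((2 + P * (P - 3)) ^ (d + 1) - 2 ^ (d + 1)) := by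
    have := dvd_sub B A
    rw [← mul_pow, ← mul_pow, eN, pow_add] at h'
    refine (congrArg _ ?_).mp this
    linear_combination -h'
  have nd : ∀ a : ℕ, 0 < a → a < m + 3 → ¬ P ∣ (a : ℤ) := by
    intro a h1 h2 h3
    have := Nat.le_of_dvd h1 (Int.natCast_dvd_natCast.1 h3)
    omega
  have hcop : ¬ P ∣ (2 + P * (P - 3)) ^ s := by
    intro h
    have h2 := hPp.dvd_of_dvd_pow h
    exact nd 2 (by norm_num) (by omega) (by simpa using (dvd_add_left (dvd_mul_right P _)).1 h2)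
  have D := hPp.pow_dvd_of_dvd_mul_left 2 hcop C
  have E := sq_dvd_add_pow_sub_sub (P * (P - 3)) 2 (d + 1)
  have F : P ^ 2 ∣ 2 ^ d * (P * (P - 3)) * ((d + 1 : ℕ) : ℤ) := by
    have := dvd_sub D ((pow_dvd_pow_of_dvd (dvd_mul_right P (P - 3)) 2).trans E)
    refine (congrArg _ ?_).mp this
    simp
  have G : P ∣ 2 ^ d * (P - 3) * ((d + 1 : ℕ) : ℤ) := by
    rw [show 2 ^ d * (P * (P - 3)) * ((d + 1 : ℕ) : ℤ) =
      P * (2 ^ d * (P - 3) * ((d + 1 : ℕ) : ℤ)) by ring, sq] at F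
    exact (mul_dvd_mul_iff_left hPp.ne_zero).1 F
  rcases hPp.dvd_or_dvd G with h | h
  · rcases hPp.dvd_or_dvd h with h | h
    · exact nd 2 (by norm_num) (by omega) (by simpa using hPp.dvd_of_dvd_pow h)
    · exact nd 3 (by norm_num) (by omega) (by simpa using h)
  · exact nd _ (by omega) (by omega) h

end Pool.Agent.Results.MP_90f83a_nt.NonIntegral
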